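import Mathlib
import Pool.Agent.H6.Dist1

set_option autoImplicit false

namespace Pool.Agent.Results.MP_9b093e_co.Unbounded

/-- `f` is a broadcast: `f v` is at most the eccentricity of `v` -/
def Broadcast {V : Type} (G : SimpleGraph V) (f : V → ℕ) : Prop := ∀ v, (f v : ℕ∞) ≤ G.eccent v

/-- `f` is a dominating broadcast -/
def DomB {V : Type} (G : SimpleGraph V) (f : V → ℕ) : Prop :=
  Broadcast G f ∧ ∀ u, ∃ v, 1 ≤ f v ∧ G.dist u v ≤ f v

/-- `f` is a minimal dominating broadcast -/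
def MinDomB {V : Type} (G : SimpleGraph V) (f : V → ℕ) : Prop :=
  DomB G f ∧ ∀ g, g < f → ¬ DomB G g

/-- `D` is a dominating set -/
def Dom {V : Type} (G : SimpleGraph V) (D : Finset V) : Prop := ∀ u, u ∈ D ∨ ∃ v ∈ D, G.Adj u v

/-- `D` is a minimal dominating set -/
def MinDom {V : Type} (G : SimpleGraph V) (D : Finset V) : Prop :=
  Dom G D ∧ ∀ E, E ⊂ D → ¬ Dom G E

def lev {k : ℕ} (v : Fin (k + 2) × Fin (k + 2)) : ℕ := if v.2.1 = k + 1 then min v.1.1 k else v.1.1

def G (k : ℕ) : SimpleGraph (Fin (k + 2) × Fin (k + 2)) where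
  Adj u v := u ≠ v ∧ (lev u = lev v ∨
    (u.2.1 = v.2.1 ∧ u.2.1 ≠ k + 1 ∧ (u.1.1 + 1 = v.1.1 ∨ v.1.1 + 1 = u.1.1)))
  symm := ⟨fun _ _ h => ⟨h.1.symm, by have := h.2; omega⟩⟩
  loopless := ⟨fun _ h => h.1 rfl⟩

lemma ne_iff {k : ℕ} (u v : Fin (k + 2) × Fin (k + 2)) : u ≠ v ↔ u.1.1 ≠ v.1.1 ∨ u.2.1 ≠ v.2.1 := by
  rw [Ne, Prod.ext_iff, Fin.ext_iff, Fin.ext_iff]; omega

lemma dist (k : ℕ) (i : Fin (k + 2)) (hi : i.1 ≠ k + 1) (u : Fin (k + 2) × Fin (k + 2)) :
    (G k).Reachable u (0, i) ∧ (G k).dist u (0, i) = lev u + if u.2.1 = i.1 then 0 else 1 := by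
  refine Pool.Agent.H6.Dist1.reach_dist (G k) (0, i) (fun u => lev u + if u.2.1 = i.1 then 0 else 1)
    (by simp [lev]) (fun u v h => ?_) (fun u => ?_) u
  · have := h.2
    simp only [lev] at *
    split_ifs at * <;> omega
  · have := u.1.2
    by_cases c : u.2.1 = i.1
    · by_cases d : u.1.1 = 0
      · exact .inl (Prod.ext (Fin.ext d) (Fin.ext c))
      · refine .inr ⟨(⟨u.1.1 - 1, by omega⟩, i), ⟨(ne_iff _ _).2 ?_, ?_⟩, ?_⟩ <;>
        simp only [lev] <;> (try split_ifs) <;> omega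
    · refine .inr ⟨(⟨lev u, by unfold lev; split_ifs <;> omega⟩, i), ⟨(ne_iff _ _).2 (.inr c), ?_⟩, ?_⟩ <;>
      simp [lev, hi, c]

theorem result (C : ℕ) : ∃ (V : Type) (_ : Fintype V) (G : SimpleGraph V), G.Connected ∧
    2 ≤ Fintype.card V ∧ ∃ f, MinDomB G f ∧ ∀ D, MinDom G D → C * D.card < ∑ v, f v := by
  obtain ⟨k, hk⟩ : ∃ k, k = 2 * C + 1 := ⟨_, rfl⟩
  let f : Fin (k + 2) × Fin (k + 2) → ℕ := fun v => if v.1.1 = 0 ∧ v.2.1 ≠ k + 1 then k + 1 else 0
  have pos : ∀ v, 1 ≤ f v → v = (0, v.2) ∧ v.2.1 ≠ k + 1 ∧ f v = k + 1 := fun v h => by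
    by_cases c : v.1.1 = 0 ∧ v.2.1 ≠ k + 1
    · exact ⟨Prod.ext (Fin.ext c.1) rfl, c.2, if_pos c⟩
    · simp only [f, if_neg c] at h; omega
  have top : ∀ i : Fin (k + 2), i.1 ≠ k + 1 → lev (Fin.last (k + 1), i) = k + 1 := fun i h => by
    simp [lev, h]
  refine ⟨_, inferInstance, G k, ⟨fun u v => (dist k 0 (by simp) u).1.trans (dist k 0 (by simp) v).1.symm⟩,
    by simp; nlinarith, f, ⟨⟨fun v => ?_, fun u => ?_⟩, fun g hg hd => hg.ne ?_⟩, fun D hD => ?_⟩
  · by_cases c : 1 ≤ f v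
    · obtain ⟨a, b, e⟩ := pos v c
      obtain ⟨d1, d2⟩ := dist k v.2 b (Fin.last (k + 1), v.2)
      refine le_trans ?_ (SimpleGraph.edist_le_eccent (v := (Fin.last (k + 1), v.2)))
      rw [e, SimpleGraph.edist_comm, a, ← d1.coe_dist_eq_edist, d2, top _ b]
      simp
    · simp [show f v = 0 by omega]
  · have := u.1.2
    by_cases c : u.2.1 = k + 1
    · refine ⟨(0, 0), by simp [f], ?_⟩
      rw [(dist k 0 (by simp) u).2]
      simp [f, lev, c]
    · refine ⟨(0, u.2), by simp [f, c], ?_⟩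
      rw [(dist k u.2 c u).2]
      simp [f, lev, c]; omega
  · funext v
    have hv : g v ≤ f v := hg.le v
    by_cases c : 1 ≤ f v
    · obtain ⟨a, b, e⟩ := pos v c
      obtain ⟨w, w1, w2⟩ := hd.2 (Fin.last (k + 1), v.2)
      have hw : g w ≤ f w := hg.le w
      obtain ⟨a', b', e'⟩ := pos w (by omega)
      have d := (dist k w.2 b' (Fin.last (k + 1), v.2)).2
      rw [← a', top _ b] at d
      have : v.2.1 = w.2.1 := by
        by_contra h
        rw [if_neg h] at d
        omega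
      have : v = w := by rw [a, a', Fin.ext this]
      subst this
      omega
    · omega
  · have pr : ∀ v ∈ D, ∃ p, ∀ a ∈ D, (a = p ∨ (G k).Adj p a) → a = v := fun v hv => by
      have := hD.2 _ (Finset.erase_ssubset hv)
      simp only [Dom, not_forall, not_or, not_exists, not_and, Finset.mem_erase] at this
      obtain ⟨p, p1, p2⟩ := this
      refine ⟨p, fun a ha h => ?_⟩
      by_contra c
      rcases h with rfl | h
      · exact p1 c ha
      · exact p2 a ⟨c, ha⟩ h
    choose! p hp using pr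
    have lb : ∀ v : Fin (k + 2) × Fin (k + 2), lev v < k + 2 := fun v => by
      have := v.1.2; unfold lev; split_ifs <;> omega
    have c1 := Finset.card_le_card_of_injOn (s := D) (t := (Finset.univ : Finset (Bool × Fin (k + 2))))
      (fun v => if lev (p v) ≤ k then (true, ⟨lev (p v), lb _⟩) else (false, (p v).2))
      (fun _ _ => by simp) (fun v hv w hw e => by
        dsimp only at e
        have same : ∀ a x : Fin (k + 2) × Fin (k + 2), lev x = lev a → a = x ∨ (G k).Adj x a :=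
          fun a x h => (eq_or_ne a x).imp id fun n => ⟨n.symm, .inl h⟩
        split_ifs at e with h1 h2 h2
        · have e' : lev (p v) = lev (p w) := by simpa using e
          have l0 : lev ((⟨lev (p v), lb _⟩, Fin.last (k + 1)) : Fin (k + 2) × Fin (k + 2)) = lev (p v) := by
            rw [lev]; simp [h1]
          have : ∃ a ∈ D, lev a = lev (p v) := by
            rcases hD.1 (⟨lev (p v), lb _⟩, Fin.last (k + 1)) with h | ⟨a, ha, h⟩
            · exact ⟨_, h, l0⟩
            · exact ⟨a, ha, by simpa [l0] using h.2.imp Eq.symm id⟩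
          obtain ⟨a, ha, l⟩ := this
          rw [← hp v hv a ha (same _ _ l.symm), ← hp w hw a ha (same _ _ (e' ▸ l.symm))]
        · simp at e
        · simp at e
        · have e' : (p v).2 = (p w).2 := by simpa using e
          have : p v = p w := by
            refine Prod.ext (Fin.ext ?_) e'
            have := (p v).1.2; have := (p w).1.2
            unfold lev at h1 h2
            split_ifs at h1 h2 <;> omega
          rcases hD.1 (p v) with h | ⟨a, ha, h⟩
          · rw [← hp v hv _ h (.inl rfl), ← hp w hw _ h (.inl this)]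
          · rw [← hp v hv a ha (.inr h), ← hp w hw a ha (.inr (this ▸ h))])
    have c2 : ∑ v, f v = (k + 1) * (k + 1) := by
      rw [Fintype.sum_prod_type, Fin.sum_univ_succ, Fin.sum_univ_castSucc]
      have : ∀ x : Fin (k + 1), x.1 ≠ k + 1 := fun x => x.2.ne
      simp [f, this]
    simp only [Finset.card_univ, Fintype.card_prod, Fintype.card_bool, Fintype.card_fin] at c1
    rw [c2]
    have := Nat.mul_le_mul_left C c1
    subst hk
    nlinarith

end Pool.Agent.Results.MP_9b093e_co.Unbounded
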